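import Pool.Agent.Y268.QR.UpC

/-!
# Project QR: test functions on the surface
-/

set_option autoImplicit false

open Set Filter Topology MeasureTheory
open scoped Real ContDiff

noncomputable section

namespace Pool.Agent.Y268.QR

open Pool.Agent.Y262.QE Pool.Agent.Y264.QR

variable {M : Type} [MetricSpace M] [CompactSpace M] [MeasurableSpace M] [BorelSpace M]
  {μ : Measure M} {D : Data M}

theorem area_pos (hD : D.IsSurf μ) [IsFiniteMeasure μ] [Nonempty M] (φ : C(M, ℝ)) :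
    0 < ∫ x, Real.exp (φ x) ∂μ := by
  rw [integral_pos_iff_support_of_nonneg (fun x => (Real.exp_pos _).le)
    (int_cont (Real.continuous_exp.comp φ.continuous))]
  have e : Function.support (fun x => Real.exp (φ x)) = univ :=
    Set.eq_univ_of_forall fun x => (Real.exp_pos _).ne'
  rw [e]
  exact (Pool.Agent.Y274.QE.Fin.fin M μ D hD).2 _ isOpen_univ univ_nonempty

/-- the squares fill the surface -/
theorem fill [IsFiniteMeasure μ] {η : ℝ} (hη : 0 < η) (φ : C(M, ℝ)) {n : ℕ} (r : Fin n → ℝ)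
    (Φ : Fin n → ℂ → M) (R : Set M) (hP : ∀ k, 0 < r k ∧ Pt D μ η (r k) (Φ k))
    (hφ : ∀ k, ∀ y ∈ Sq 0 (r k), |φ (Φ k y) - φ (Φ k 0)| ≤ η) (hR : IsClosed R)
    (hcov : ∀ x, x ∈ R ∨ ∃ k, x ∈ Φ k '' Sq 0 (r k)) (hμ : μ R < ENNReal.ofReal η) :
    (1 + η)⁻¹ * Real.exp (-η) * ((∫ x, Real.exp (φ x) ∂μ) - Real.exp ‖φ‖ * η) ≤
      4 * ∑ k, (r k) ^ 2 * Real.exp (φ (Φ k 0)) := by
  have hη' : (0 : ℝ) < 1 + η := by linarith
  have hi : Integrable (fun x => Real.exp (φ x)) μ :=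
    int_cont (Real.continuous_exp.comp φ.continuous)
  have hSm : ∀ k, MeasurableSet (Φ k '' Sq 0 (r k)) := fun k => (im_closed (hP k).2).measurableSet
  have h1 : ∫ x, Real.exp (φ x) ∂μ ≤ (∫ x in R, Real.exp (φ x) ∂μ) +
      ∑ k, ∫ x in Φ k '' Sq 0 (r k), Real.exp (φ x) ∂μ := by
    rw [← integral_indicator hR.measurableSet,
      Finset.sum_congr rfl fun k _ => (integral_indicator (hSm k)).symm,
      ← integral_finsetSum _ fun k _ => hi.indicator (hSm k),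
      ← integral_add (hi.indicator hR.measurableSet)
        (integrable_finsetSum _ fun k _ => hi.indicator (hSm k))]
    refine integral_mono hi ((hi.indicator hR.measurableSet).add
      (integrable_finsetSum _ fun k _ => hi.indicator (hSm k))) fun x => ?_
    simp only
    have n1 : 0 ≤ R.indicator (fun x => Real.exp (φ x)) x :=
      Set.indicator_nonneg (fun _ _ => (Real.exp_pos _).le) _
    have n2 : ∀ k, 0 ≤ (Φ k '' Sq 0 (r k)).indicator (fun x => Real.exp (φ x)) x := fun k =>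
      Set.indicator_nonneg (fun _ _ => (Real.exp_pos _).le) _
    rcases hcov x with hx | ⟨k, hx⟩
    · have h2 : R.indicator (fun x => Real.exp (φ x)) x = Real.exp (φ x) :=
        Set.indicator_of_mem hx _
      have h3 : 0 ≤ ∑ k, (Φ k '' Sq 0 (r k)).indicator (fun x => Real.exp (φ x)) x :=
        Finset.sum_nonneg fun k _ => n2 k
      linarith
    · have h2 : (Φ k '' Sq 0 (r k)).indicator (fun x => Real.exp (φ x)) x = Real.exp (φ x) :=
        Set.indicator_of_mem hx _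
      have h3 := Finset.single_le_sum (fun k _ => n2 k) (Finset.mem_univ k)
      linarith
  have hb : ∀ x, Real.exp (φ x) ≤ Real.exp ‖φ‖ := fun x => by
    refine Real.exp_le_exp.2 ?_
    have := φ.norm_coe_le_norm x
    rw [Real.norm_eq_abs] at this
    exact (abs_le.1 this).2
  have h2 : ∫ x in R, Real.exp (φ x) ∂μ ≤ Real.exp ‖φ‖ * η := by
    calc ∫ x in R, Real.exp (φ x) ∂μ ≤ ∫ x in R, Real.exp ‖φ‖ ∂μ :=
          integral_mono hi.integrableOn (integrable_const _) hb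
      _ = μ.real R * Real.exp ‖φ‖ := by
        rw [setIntegral_const, smul_eq_mul]
      _ ≤ η * Real.exp ‖φ‖ := by
        refine mul_le_mul_of_nonneg_right ?_ (Real.exp_pos _).le
        have := ENNReal.toReal_mono ENNReal.ofReal_ne_top hμ.le
        rwa [ENNReal.toReal_ofReal hη.le] at this
      _ = _ := by ring
  have h3 : ∀ k, ∫ x in Φ k '' Sq 0 (r k), Real.exp (φ x) ∂μ ≤
      Real.exp η * (1 + η) * (4 * ((r k) ^ 2 * Real.exp (φ (Φ k 0)))) := by
    intro k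
    have h4 := (pt_int hη (hP k).2 (g := fun _ => (1 : ℝ)) measurable_const (fun _ => zero_le_one)
      (C := 1) fun _ => le_rfl).1
    rw [setIntegral_const, setIntegral_const, smul_eq_mul, smul_eq_mul, mul_one, mul_one] at h4
    have h5 : volume.real (Sq 0 (r k)) = 4 * (r k) ^ 2 := by
      rw [Measure.real, vol_sq (hP k).1, ENNReal.toReal_ofReal (by positivity)]
    rw [h5] at h4
    calc ∫ x in Φ k '' Sq 0 (r k), Real.exp (φ x) ∂μ
        ≤ ∫ x in Φ k '' Sq 0 (r k), Real.exp η * Real.exp (φ (Φ k 0)) ∂μ := by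
          refine setIntegral_mono_on hi.integrableOn (integrable_const _).integrableOn (hSm k)
            fun x hx => ?_
          obtain ⟨y, hy, rfl⟩ := hx
          rw [← Real.exp_add]
          have h6 := (abs_le.1 (hφ k y hy)).2
          exact Real.exp_le_exp.2 (by linarith)
      _ = μ.real (Φ k '' Sq 0 (r k)) * (Real.exp η * Real.exp (φ (Φ k 0))) := by
        rw [setIntegral_const, smul_eq_mul]
      _ ≤ ((1 + η) * (4 * (r k) ^ 2)) * (Real.exp η * Real.exp (φ (Φ k 0))) :=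
        mul_le_mul_of_nonneg_right h4 (by positivity)
      _ = _ := by ring
  have h4 : (∫ x, Real.exp (φ x) ∂μ) - Real.exp ‖φ‖ * η ≤
      Real.exp η * (1 + η) * (4 * ∑ k, (r k) ^ 2 * Real.exp (φ (Φ k 0))) := by
    have h5 : ∑ k, ∫ x in Φ k '' Sq 0 (r k), Real.exp (φ x) ∂μ ≤
        Real.exp η * (1 + η) * (4 * ∑ k, (r k) ^ 2 * Real.exp (φ (Φ k 0))) := by
      rw [Finset.mul_sum, Finset.mul_sum]
      exact Finset.sum_le_sum fun k _ => h3 k
    linarith
  have h5 : Real.exp (-η) * Real.exp η = 1 := by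
    rw [← Real.exp_add]
    simp
  calc (1 + η)⁻¹ * Real.exp (-η) * ((∫ x, Real.exp (φ x) ∂μ) - Real.exp ‖φ‖ * η)
      ≤ (1 + η)⁻¹ * Real.exp (-η) * (Real.exp η * (1 + η) *
        (4 * ∑ k, (r k) ^ 2 * Real.exp (φ (Φ k 0)))) :=
        mul_le_mul_of_nonneg_left h4 (by positivity)
    _ = ((1 + η)⁻¹ * (1 + η)) * (Real.exp (-η) * Real.exp η) *
        (4 * ∑ k, (r k) ^ 2 * Real.exp (φ (Φ k 0))) := by ring
    _ = _ := by rw [h5, inv_mul_cancel₀ hη'.ne']; ring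

/-- choice of the small parameter -/
theorem small {A W ε : ℝ} (hA : 0 < A) (hε : 0 < ε) : ∃ η : ℝ, 0 < η ∧ η < 1 ∧
    (1 + η) ^ 5 * Real.exp η < 1 + ε ∧
    (1 - ε) * A < (1 - η) * ((1 + η)⁻¹ * Real.exp (-η) * (A - W * η)) := by
  have c1 : ContinuousAt (fun η : ℝ => (1 + η) ^ 5 * Real.exp η) 0 := by fun_prop
  have c2 : ContinuousAt (fun η : ℝ => (1 - η) * ((1 + η)⁻¹ * Real.exp (-η) * (A - W * η))) 0 := by
    have : ContinuousAt (fun η : ℝ => (1 + η)⁻¹) 0 :=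
      ContinuousAt.inv₀ (by fun_prop) (by norm_num)
    fun_prop
  have e1 : ∀ᶠ η : ℝ in 𝓝 0, (1 + η) ^ 5 * Real.exp η < 1 + ε :=
    c1.eventually (Iio_mem_nhds (by simp; linarith))
  have e2 : ∀ᶠ η : ℝ in 𝓝 0, (1 - ε) * A <
      (1 - η) * ((1 + η)⁻¹ * Real.exp (-η) * (A - W * η)) :=
    c2.eventually (Ioi_mem_nhds (by
      simp
      nlinarith))
  have e3 : ∀ᶠ η : ℝ in 𝓝 0, η < 1 := Iio_mem_nhds one_pos
  obtain ⟨η, ⟨⟨h1, h2⟩, h3⟩, h4⟩ := ((((e1.and e2).and e3).filter_mono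
    (nhdsWithin_le_nhds (s := Ioi 0))).and self_mem_nhdsWithin).exists
  exact ⟨η, h4, h3, h1, h2⟩

theorem up (hDir : StDir) (hLat : StLat) (hCov : StCov) : StUp := by
  intro M _ _ _ _ μ D hD hne φ ε hε
  have : IsFiniteMeasure μ := (Pool.Agent.Y274.QE.Fin.fin M μ D hD).1
  have hA := area_pos hD φ
  obtain ⟨η, hη, hη1, hs1, hs2⟩ := small (W := Real.exp ‖φ‖) hA hε
  obtain ⟨n, r, Φ, R, hP, hdis, hφ, hR, hcov, hμ⟩ := hCov M μ D hD φ η hη
  have hfill := fill hη φ r Φ R hP hφ hR hcov hμ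
  -- lattice points
  have hl : ∀ᶠ R : ℝ in atTop, (1 - η) * (π / 4) * R ≤ (cD R : ℝ) := by
    have h1 : (1 - η) * (π / 4) < π / 4 := by
      have := Real.pi_pos
      nlinarith
    filter_upwards [hLat.2.eventually (Ioi_mem_nhds h1), eventually_gt_atTop 0] with R h2 h3
    have h4 : (1 - η) * (π / 4) < (cD R : ℝ) / R := h2
    rw [lt_div_iff₀ h3] at h4
    exact h4.le
  have hl2 : ∀ k, ∀ᶠ Λ : ℝ in atTop, (1 - η) * (π / 4) *
      (4 * (r k) ^ 2 * (Λ * Real.exp (φ (Φ k 0))) / π ^ 2) ≤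
        (cD (4 * (r k) ^ 2 * (Λ * Real.exp (φ (Φ k 0))) / π ^ 2) : ℝ) := by
    intro k
    have h1 : Tendsto (fun Λ : ℝ => 4 * (r k) ^ 2 * (Λ * Real.exp (φ (Φ k 0))) / π ^ 2)
        atTop atTop := by
      have h2 : (fun Λ : ℝ => 4 * (r k) ^ 2 * (Λ * Real.exp (φ (Φ k 0))) / π ^ 2) =
          fun Λ : ℝ => (4 * (r k) ^ 2 * Real.exp (φ (Φ k 0)) / π ^ 2) * Λ := by
        funext Λ
        ring
      rw [h2]
      have := (hP k).1
      exact tendsto_id.const_mul_atTop (by positivity)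
    exact h1.eventually hl
  obtain ⟨Λ₀, hΛ₀⟩ := eventually_atTop.1 ((eventually_all.2 hl2).and (eventually_gt_atTop 0))
  refine ⟨Λ₀, fun Λ hΛ => ?_⟩
  obtain ⟨hcount, hΛ0⟩ := hΛ₀ Λ hΛ
  -- the functions
  have hdir := fun k => hDir (r k) (Λ * Real.exp (φ (Φ k 0))) η (hP k).1 (by positivity) hη
  choose f hf hfc using hdir
  have hlift := fun k m => (hP k).2.lift (f k m) (hf k m).1 (hf k m).2
  choose F hF using hlift
  have hF' : ∀ (k : Fin n) (m : Fin (cD (4 * (r k) ^ 2 * (Λ * Real.exp (φ (Φ k 0))) / π ^ 2))),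
    D.C1 (F k m) := fun k m => (hF k m).1
  have e : (Σ k : Fin n, Fin (cD (4 * (r k) ^ 2 * (Λ * Real.exp (φ (Φ k 0))) / π ^ 2))) ≃
      Fin (∑ k, cD (4 * (r k) ^ 2 * (Λ * Real.exp (φ (Φ k 0))) / π ^ 2)) := finSigmaFinEquiv
  refine ⟨∑ k, cD (4 * (r k) ^ 2 * (Λ * Real.exp (φ (Φ k 0))) / π ^ 2),
    fun i => F (e.symm i).1 (e.symm i).2,
    Real.exp (-η) * Real.exp (-‖φ‖) / (2 * (1 + η)), ?_, fun i => hF' _ _, by positivity, ?_⟩
  · -- counting
    have h1 : (1 - η) * (π / 4) * (4 * Λ / π ^ 2 * ∑ k, (r k) ^ 2 * Real.exp (φ (Φ k 0))) ≤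
        ((∑ k, cD (4 * (r k) ^ 2 * (Λ * Real.exp (φ (Φ k 0))) / π ^ 2) : ℕ) : ℝ) := by
      push_cast
      rw [Finset.mul_sum, Finset.mul_sum]
      refine Finset.sum_le_sum fun k _ => ?_
      refine le_trans (le_of_eq ?_) (hcount k)
      ring
    refine le_trans ?_ h1
    have h2 : (1 - ε) * (∫ x, Real.exp (φ x) ∂μ) ≤
        (1 - η) * (4 * ∑ k, (r k) ^ 2 * Real.exp (φ (Φ k 0))) :=
      hs2.le.trans (mul_le_mul_of_nonneg_left hfill (by linarith))
    have hpi := Real.pi_pos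
    calc (1 - ε) * Λ * (∫ x, Real.exp (φ x) ∂μ) / (4 * π)
        = Λ / (4 * π) * ((1 - ε) * (∫ x, Real.exp (φ x) ∂μ)) := by ring
      _ ≤ Λ / (4 * π) * ((1 - η) * (4 * ∑ k, (r k) ^ 2 * Real.exp (φ (Φ k 0)))) :=
        mul_le_mul_of_nonneg_left h2 (by positivity)
      _ = _ := by
        field_simp
  · intro c
    have hFe : ∀ q, F (e.symm (e q)).1 (e.symm (e q)).2 = F q.1 q.2 := fun q =>
      congrArg (fun q' : (Σ k : Fin n,
        Fin (cD (4 * (r k) ^ 2 * (Λ * Real.exp (φ (Φ k 0))) / π ^ 2))) => F q'.1 q'.2)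
        (e.symm_apply_apply q)
    have s1 : ∀ x, ∑ i, c i * F (e.symm i).1 (e.symm i).2 x = ∑ q, c (e q) * F q.1 q.2 x := by
      intro x
      rw [← Equiv.sum_comp e]
      exact Finset.sum_congr rfl fun q _ => by rw [hFe]
    have s2 : ∀ x, ∑ i, c i • D.gr (F (e.symm i).1 (e.symm i).2) x =
        ∑ q, c (e q) • D.gr (F q.1 q.2) x := by
      intro x
      rw [← Equiv.sum_comp e]
      exact Finset.sum_congr rfl fun q _ => by rw [hFe]
    have s3 : ∑ i, (c i) ^ 2 = ∑ q, (c (e q)) ^ 2 := (Equiv.sum_comp e fun i => (c i) ^ 2).symm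
    have key' := multi hD hη hΛ0.le φ r Φ hP hdis hφ
      (fun k => cD (4 * (r k) ^ 2 * (Λ * Real.exp (φ (Φ k 0))) / π ^ 2)) f hf hfc F hF
      (fun q => c (e q))
    simp only [s1, s2, s3]
    refine ⟨key'.1, key'.2.trans ?_⟩
    have h0 : 0 ≤ ∫ x, Real.exp (φ x) * (∑ q : (Σ k : Fin n,
        Fin (cD (4 * (r k) ^ 2 * (Λ * Real.exp (φ (Φ k 0))) / π ^ 2))),
        c (e q) * F q.1 q.2 x) ^ 2 ∂μ :=
      integral_nonneg fun x => by positivity
    refine mul_le_mul_of_nonneg_right ?_ h0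
    exact mul_le_mul_of_nonneg_right hs1.le hΛ0.le

/-- `W-UP` -/
theorem t : StDir → StLat → StCov → StUp := up

end Pool.Agent.Y268.QR
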