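import Pool.Agent.Y264.QR.Stm2
import Pool.Agent.Y708.QE.Gr
import Pool.Agent.Y540.QE.Sub
import Pool.Agent.Y274.QE.Fin

/-!
# Project QR: test functions on the surface, tools
-/

set_option autoImplicit false

open Set Filter Topology MeasureTheory
open scoped Real ContDiff

noncomputable section

namespace Pool.Agent.Y268.QR

open Pool.Agent.Y262.QE Pool.Agent.Y264.QR

/-! ### the square -/

theorem vol_sq {r : ℝ} (hr : 0 < r) : volume (Sq 0 r) = ENNReal.ofReal (4 * r ^ 2) := by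
  rw [Pool.Agent.Y540.QE.sq_eq, Complex.volume_preserving_equiv_real_prod.measure_preimage
    (measurableSet_Icc.prod measurableSet_Icc).nullMeasurableSet, Measure.volume_eq_prod,
    Measure.prod_prod, Real.volume_Icc, Real.volume_Icc, ← ENNReal.ofReal_mul (by simp; linarith)]
  congr 1
  simp
  ring

theorem convex_sq (r : ℝ) : Convex ℝ (Sq 0 r) := by
  rw [Pool.Agent.Y540.QE.sq_eq]
  exact ((convex_Icc _ _).prod (convex_Icc _ _)).linear_preimage Complex.equivRealProdCLM.toLinearMap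

theorem null_bdr (r : ℝ) : volume (Sq 0 r \ interior (Sq 0 r)) = 0 := by
  have h := (convex_sq r).addHaar_frontier volume
  refine measure_mono_null (fun z hz => ?_) h
  exact ⟨subset_closure hz.1, hz.2⟩

theorem meas_sq (r : ℝ) : MeasurableSet (Sq 0 r) :=
  (Pool.Agent.Y540.QE.compact_sq 0 r).isClosed.measurableSet

section

variable {M : Type} [MetricSpace M] [CompactSpace M] [MeasurableSpace M] [BorelSpace M]
  {μ : Measure M} {D : Data M}

/-! ### gradients -/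

theorem C1_zero : D.C1 (fun _ : M => (0 : ℝ)) := fun _ => contDiffOn_const

theorem gr_zero (hD : D.IsSurf μ) (x : M) : D.gr (fun _ : M => (0 : ℝ)) x = 0 := by
  have h := ((Pool.Agent.Y708.QE.gradient M μ D hD).2.2 (fun _ : M => (0 : ℝ))
    (fun _ : M => (0 : ℝ)) C1_zero C1_zero 0 0).2 x
  simpa using h

theorem sum_C1 (hD : D.IsSurf μ) {ι : Type} (s : Finset ι) (c : ι → ℝ) (F : ι → M → ℝ)
    (hF : ∀ i, D.C1 (F i)) : D.C1 (fun x => ∑ i ∈ s, c i * F i x) ∧
      ∀ x, D.gr (fun x => ∑ i ∈ s, c i * F i x) x = ∑ i ∈ s, c i • D.gr (F i) x := by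
  classical
  induction s using Finset.induction_on with
  | empty =>
    refine ⟨by simpa using C1_zero, fun x => ?_⟩
    simpa using gr_zero hD x
  | insert a s ha ih =>
    have h := (Pool.Agent.Y708.QE.gradient M μ D hD).2.2 (F a) (fun x => ∑ i ∈ s, c i * F i x)
      (hF a) ih.1 (c a) 1
    simp only [one_mul, one_smul] at h
    simp only [Finset.sum_insert ha]
    refine ⟨h.1, fun x => ?_⟩
    rw [h.2 x, ih.2 x]

theorem gr_off (hD : D.IsSurf μ) {F : M → ℝ} {K : Set M} (hK : IsClosed K)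
    (hF : ∀ x, x ∉ K → F x = 0) {x : M} (hx : x ∉ K) : D.gr F x = 0 := by
  obtain ⟨i, hi⟩ := Pool.Agent.Y708.QE.pc_ex hD x
  rw [Pool.Agent.Y708.QE.gr_eq hi]
  have h1 : D.dc i F x = 0 := by
    unfold Data.dc
    have h2 : (fun z => F (D.ψ i z)) =ᶠ[𝓝 (D.φ i x)] fun _ => (0 : ℝ) := by
      filter_upwards [Pool.Agent.Y708.QE.ev_left hD hi.1 hK.isOpen_compl hx] with z hz
      exact hF _ hz
    rw [h2.fderiv_eq]
    simp
  unfold Data.gc
  rw [h1]
  apply Complex.ext <;> simp [grd]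

/-! ### integration over an almost isometric square -/

theorem im_closed {η r : ℝ} {Φ : ℂ → M} (hP : Pt D μ η r Φ) : IsClosed (Φ '' Sq 0 r) :=
  ((Pool.Agent.Y540.QE.compact_sq 0 r).image_of_continuousOn hP.cont).isClosed

theorem aem_Φ {η r : ℝ} {Φ : ℂ → M} (hP : Pt D μ η r Φ) :
    AEMeasurable Φ (volume.restrict (Sq 0 r)) :=
  hP.cont.aemeasurable (meas_sq r)

theorem aem_comp {η r : ℝ} {Φ : ℂ → M} (hP : Pt D μ η r Φ) {g : M → ℝ} (hg : Measurable g) :
    AEStronglyMeasurable (fun y => g (Φ y)) (volume.restrict (Sq 0 r)) :=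
  (hg.comp_aemeasurable (aem_Φ hP)).aestronglyMeasurable

theorem pt_int [IsFiniteMeasure μ] {η r : ℝ} (hη : 0 < η) {Φ : ℂ → M} (hP : Pt D μ η r Φ)
    {g : M → ℝ} (hg : Measurable g) (h0 : ∀ x, 0 ≤ g x) {C : ℝ} (hC : ∀ x, g x ≤ C) :
    (∫ x in Φ '' Sq 0 r, g x ∂μ ≤ (1 + η) * ∫ y in Sq 0 r, g (Φ y)) ∧
      ∫ y in Sq 0 r, g (Φ y) ≤ (1 + η) * ∫ x in Φ '' Sq 0 r, g x ∂μ := by
  have h1 := hP.int (fun x => ENNReal.ofReal (g x)) hg.ennreal_ofReal
  have fin1 : ∫⁻ x in Φ '' Sq 0 r, ENNReal.ofReal (g x) ∂μ ≠ ⊤ := by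
    refine ne_top_of_le_ne_top ?_ (lintegral_mono fun x => ENNReal.ofReal_le_ofReal (hC x))
    rw [lintegral_const]
    exact ENNReal.mul_ne_top ENNReal.ofReal_ne_top (measure_ne_top _ _)
  have fin2 : ∫⁻ y in Sq 0 r, ENNReal.ofReal (g (Φ y)) ≠ ⊤ :=
    ne_top_of_le_ne_top (ENNReal.mul_ne_top ENNReal.ofReal_ne_top fin1) h1.2
  have e1 : ∫ x in Φ '' Sq 0 r, g x ∂μ = (∫⁻ x in Φ '' Sq 0 r, ENNReal.ofReal (g x) ∂μ).toReal :=
    integral_eq_lintegral_of_nonneg_ae (Eventually.of_forall h0) hg.aestronglyMeasurable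
  have e2 : ∫ y in Sq 0 r, g (Φ y) = (∫⁻ y in Sq 0 r, ENNReal.ofReal (g (Φ y))).toReal :=
    integral_eq_lintegral_of_nonneg_ae (Eventually.of_forall fun y => h0 _) (aem_comp hP hg)
  have hη' : (0 : ℝ) ≤ 1 + η := by linarith
  rw [e1, e2]
  constructor
  · have h2 := ENNReal.toReal_mono (ENNReal.mul_ne_top ENNReal.ofReal_ne_top fin2) h1.1
    rwa [ENNReal.toReal_mul, ENNReal.toReal_ofReal hη'] at h2
  · have h2 := ENNReal.toReal_mono (ENNReal.mul_ne_top ENNReal.ofReal_ne_top fin1) h1.2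
    rwa [ENNReal.toReal_mul, ENNReal.toReal_ofReal hη'] at h2

end

end Pool.Agent.Y268.QR
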