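import Pool.Agent.Y268.QR.UpA

/-!
# Project QR: test functions on one square
-/

set_option autoImplicit false

open Set Filter Topology MeasureTheory
open scoped Real ContDiff

noncomputable section

namespace Pool.Agent.Y268.QR

open Pool.Agent.Y262.QE Pool.Agent.Y264.QR

variable {M : Type} [MetricSpace M] [CompactSpace M] [MeasurableSpace M] [BorelSpace M]
  {μ : Measure M} {D : Data M}

theorem one_square [IsFiniteMeasure μ] (hD : D.IsSurf μ) {η r L : ℝ} (hη : 0 < η) (hL : 0 ≤ L)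
    {Φ : ℂ → M} (hP : Pt D μ η r Φ) {ι : Type} [Fintype ι] (f : ι → ℂ → ℝ)
    (hf : ∀ k, ContDiff ℝ 1 (f k) ∧ tsupport (f k) ⊆ interior (Sq 0 r)) (F : ι → M → ℝ)
    (hF : ∀ k, D.C1 (F k) ∧ (∀ y ∈ Sq 0 r, F k (Φ y) = f k y) ∧ ∀ x, x ∉ Φ '' Sq 0 r → F k x = 0)
    (c : ι → ℝ) (h1 : 1 / 2 * ∑ k, (c k) ^ 2 ≤ ∫ z, (∑ k, c k * f k z) ^ 2)
    (h2 : ∫ z, ‖∑ k, c k • fderiv ℝ (f k) z‖ ^ 2 ≤ (1 + η) * L * ∫ z, (∑ k, c k * f k z) ^ 2) :
    1 / 2 * ∑ k, (c k) ^ 2 ≤ (1 + η) * ∫ x in Φ '' Sq 0 r, (∑ k, c k * F k x) ^ 2 ∂μ ∧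
      ∫ x in Φ '' Sq 0 r, ‖∑ k, c k • D.gr (F k) x‖ ^ 2 ∂μ ≤
        (1 + η) ^ 5 * L * ∫ x in Φ '' Sq 0 r, (∑ k, c k * F k x) ^ 2 ∂μ := by
  have hη' : (0 : ℝ) ≤ 1 + η := by linarith
  obtain ⟨hGC, hGg⟩ := sum_C1 hD Finset.univ c F fun k => (hF k).1
  have hGcont : Continuous fun x => ∑ k, c k * F k x :=
    ((Pool.Agent.Y708.QE.gradient M μ D hD).1 _ hGC).1
  obtain ⟨-, hgm, Cg, hCg⟩ := (Pool.Agent.Y708.QE.gradient M μ D hD).1 _ hGC
  -- the function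
  have hz : ∀ k, ∀ z, z ∉ Sq 0 r → f k z = 0 := by
    intro k z hz
    exact image_eq_zero_of_notMem_tsupport fun h => hz (interior_subset ((hf k).2 h))
  have hzd : ∀ k, ∀ z, z ∉ Sq 0 r → fderiv ℝ (f k) z = 0 := by
    intro k z hz
    by_contra h
    exact hz (interior_subset ((hf k).2 (support_fderiv_subset ℝ h)))
  have e1 : ∫ z, (∑ k, c k * f k z) ^ 2 = ∫ y in Sq 0 r, (∑ k, c k * F k (Φ y)) ^ 2 := by
    rw [← setIntegral_eq_integral_of_forall_compl_eq_zero (s := Sq 0 r)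
      (f := fun z => (∑ k, c k * f k z) ^ 2)]
    · refine setIntegral_congr_fun (meas_sq r) fun y hy => ?_
      congr 1
      exact Finset.sum_congr rfl fun k _ => by rw [(hF k).2.1 y hy]
    · intro z hz'
      rw [Finset.sum_eq_zero fun k _ => by rw [hz k z hz', mul_zero]]
      norm_num
  obtain ⟨B, hB⟩ : ∃ B : ℝ, ∀ x : M, (∑ k, c k * F k x) ^ 2 ≤ B := by
    obtain ⟨B, hB⟩ := (isCompact_univ (X := M)).bddAbove_image
      (f := fun x => (∑ k, c k * F k x) ^ 2) (hGcont.pow 2).continuousOn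
    exact ⟨B, fun x => hB ⟨x, mem_univ x, rfl⟩⟩
  have i1 := (pt_int hη hP (g := fun x => (∑ k, c k * F k x) ^ 2) (hGcont.pow 2).measurable
    (fun x => sq_nonneg _) hB).2
  rw [← e1] at i1
  refine ⟨h1.trans i1, ?_⟩
  -- the gradient
  have e2 : ∫ z, ‖∑ k, c k • fderiv ℝ (f k) z‖ ^ 2 =
      ∫ y in Sq 0 r, ‖∑ k, c k • fderiv ℝ (f k) y‖ ^ 2 := by
    rw [← setIntegral_eq_integral_of_forall_compl_eq_zero (s := Sq 0 r)
      (f := fun z => ‖∑ k, c k • fderiv ℝ (f k) z‖ ^ 2)]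
    intro z hz'
    rw [Finset.sum_eq_zero fun k _ => by rw [hzd k z hz', smul_zero]]
    simp
  have hCg' : ∀ x, ‖D.gr (fun x => ∑ k, c k * F k x) x‖ ^ 2 ≤ Cg ^ 2 := fun x =>
    pow_le_pow_left₀ (norm_nonneg _) (hCg x) 2
  have i2 := (pt_int hη hP (g := fun x => ‖D.gr (fun x => ∑ k, c k * F k x) x‖ ^ 2)
    (hgm.norm.pow_const 2) (fun x => sq_nonneg _) hCg').1
  have hcd : Continuous fun y => ‖∑ k, c k • fderiv ℝ (f k) y‖ ^ 2 := by
    refine (Continuous.norm ?_).pow 2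
    exact continuous_finsetSum _ fun k _ =>
      (continuous_const_smul (c k)).comp ((hf k).1.continuous_fderiv one_ne_zero)
  have hae : ∀ᵐ y ∂(volume.restrict (Sq 0 r)), y ∈ interior (Sq 0 r) := by
    rw [ae_restrict_iff' (meas_sq r)]
    filter_upwards [compl_mem_ae_iff.2 (null_bdr r)] with y hy hs
    by_contra h
    exact hy ⟨hs, h⟩
  obtain ⟨O, hO, hSO, hgrad⟩ := hP.grad
  have i3 : ∫ y in Sq 0 r, ‖D.gr (fun x => ∑ k, c k * F k x) (Φ y)‖ ^ 2 ≤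
      ∫ y in Sq 0 r, (1 + η) ^ 2 * ‖∑ k, c k • fderiv ℝ (f k) y‖ ^ 2 := by
    refine integral_mono_of_nonneg (Eventually.of_forall fun y => sq_nonneg _)
      ((hcd.continuousOn.integrableOn_compact (Pool.Agent.Y540.QE.compact_sq 0 r)).const_mul _) ?_
    filter_upwards [hae] with y hy
    have hy' : y ∈ Sq 0 r := interior_subset hy
    have h3 := ((hgrad _ hGC).2 y (hSO hy')).2
    have h4 : (fun y => ∑ k, c k * F k (Φ y)) =ᶠ[𝓝 y] fun y => ∑ k, c k * f k y := by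
      filter_upwards [isOpen_interior.mem_nhds hy] with y' hy'
      exact Finset.sum_congr rfl fun k _ => by rw [(hF k).2.1 y' (interior_subset hy')]
    have h5 : fderiv ℝ (fun y => ∑ k, c k * f k y) y = ∑ k, c k • fderiv ℝ (f k) y := by
      have hd : ∀ k, DifferentiableAt ℝ (f k) y := fun k =>
        (hf k).1.differentiable one_ne_zero y
      have h6 : HasFDerivAt (fun y => ∑ k, c k * f k y) (∑ k, c k • fderiv ℝ (f k) y) y :=
        HasFDerivAt.fun_sum fun k _ => (hd k).hasFDerivAt.const_mul (c k)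
      exact h6.fderiv
    rw [h4.fderiv_eq, h5] at h3
    calc ‖D.gr (fun x => ∑ k, c k * F k x) (Φ y)‖ ^ 2
        ≤ ((1 + η) * ‖∑ k, c k • fderiv ℝ (f k) y‖) ^ 2 :=
          pow_le_pow_left₀ (norm_nonneg _) h3 2
      _ = _ := by ring
  have e3 : ∫ x in Φ '' Sq 0 r, ‖∑ k, c k • D.gr (F k) x‖ ^ 2 ∂μ =
      ∫ x in Φ '' Sq 0 r, ‖D.gr (fun x => ∑ k, c k * F k x) x‖ ^ 2 ∂μ := by
    refine integral_congr_ae (Eventually.of_forall fun x => ?_)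
    simp only
    rw [hGg x]
  rw [integral_const_mul, ← e2] at i3
  rw [e3]
  calc _ ≤ (1 + η) * ∫ y in Sq 0 r, ‖D.gr (fun x => ∑ k, c k * F k x) (Φ y)‖ ^ 2 := i2
    _ ≤ (1 + η) * ((1 + η) ^ 2 * ∫ z, ‖∑ k, c k • fderiv ℝ (f k) z‖ ^ 2) :=
        mul_le_mul_of_nonneg_left i3 hη'
    _ ≤ (1 + η) * ((1 + η) ^ 2 * ((1 + η) * L * ∫ z, (∑ k, c k * f k z) ^ 2)) := by gcongr
    _ ≤ (1 + η) * ((1 + η) ^ 2 * ((1 + η) * L * ((1 + η) *
          ∫ x in Φ '' Sq 0 r, (∑ k, c k * F k x) ^ 2 ∂μ))) := by gcongr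
    _ = _ := by ring

end Pool.Agent.Y268.QR
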