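import Pool.Agent.Y268.QR.UpB

/-!
# Project QR: test functions on disjoint squares
-/

set_option autoImplicit false

open Set Filter Topology MeasureTheory
open scoped Real ContDiff

noncomputable section

namespace Pool.Agent.Y268.QR

open Pool.Agent.Y262.QE Pool.Agent.Y264.QR

theorem sum_one {E : Type} [AddCommMonoid E] {n : ℕ} (a : Fin n → E) (p : E → ℝ) (p0 : p 0 = 0)
    (h : ∀ i j, i ≠ j → a i = 0 ∨ a j = 0) : p (∑ i, a i) = ∑ i, p (a i) := by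
  by_cases hk : ∃ k, a k ≠ 0
  · obtain ⟨k, hk⟩ := hk
    have h0 : ∀ j, j ≠ k → a j = 0 := fun j hj => (h j k hj).resolve_right hk
    rw [Finset.sum_eq_single k (fun j _ hj => h0 j hj) (fun h => absurd (Finset.mem_univ k) h),
      Finset.sum_eq_single k (fun j _ hj => by rw [h0 j hj, p0])
        (fun h => absurd (Finset.mem_univ k) h)]
  · push Not at hk
    simp [hk, p0]

variable {M : Type} [MetricSpace M] [CompactSpace M] [MeasurableSpace M] [BorelSpace M]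
  {μ : Measure M} {D : Data M}

theorem int_cont [IsFiniteMeasure μ] {g : M → ℝ} (hg : Continuous g) : Integrable g μ :=
  hg.integrable_of_hasCompactSupport (HasCompactSupport.of_compactSpace g)

theorem multi [IsFiniteMeasure μ] (hD : D.IsSurf μ) {η Λ : ℝ} (hη : 0 < η) (hΛ : 0 ≤ Λ)
    (φ : C(M, ℝ)) {n : ℕ} (r : Fin n → ℝ) (Φ : Fin n → ℂ → M)
    (hP : ∀ k, 0 < r k ∧ Pt D μ η (r k) (Φ k))
    (hdis : ∀ k l, k ≠ l → Disjoint (Φ k '' Sq 0 (r k)) (Φ l '' Sq 0 (r l)))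
    (hφ : ∀ k, ∀ y ∈ Sq 0 (r k), |φ (Φ k y) - φ (Φ k 0)| ≤ η)
    (N : Fin n → ℕ) (f : ∀ k, Fin (N k) → ℂ → ℝ)
    (hf : ∀ k m, ContDiff ℝ 1 (f k m) ∧ tsupport (f k m) ⊆ interior (Sq 0 (r k)))
    (hdir : ∀ k (c : Fin (N k) → ℝ), 1 / 2 * ∑ m, (c m) ^ 2 ≤ ∫ z, (∑ m, c m * f k m z) ^ 2 ∧
      ∫ z, ‖∑ m, c m • fderiv ℝ (f k m) z‖ ^ 2 ≤
        (1 + η) * (Λ * Real.exp (φ (Φ k 0))) * ∫ z, (∑ m, c m * f k m z) ^ 2)
    (F : ∀ k, Fin (N k) → M → ℝ)
    (hF : ∀ k m, D.C1 (F k m) ∧ (∀ y ∈ Sq 0 (r k), F k m (Φ k y) = f k m y) ∧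
      ∀ x, x ∉ Φ k '' Sq 0 (r k) → F k m x = 0) (c : (Σ k : Fin n, Fin (N k)) → ℝ) :
    Real.exp (-η) * Real.exp (-‖φ‖) / (2 * (1 + η)) * ∑ q, (c q) ^ 2 ≤
        ∫ x, Real.exp (φ x) * (∑ q : (Σ k : Fin n, Fin (N k)), c q * F q.1 q.2 x) ^ 2 ∂μ ∧
      ∫ x, ‖∑ q : (Σ k : Fin n, Fin (N k)), c q • D.gr (F q.1 q.2) x‖ ^ 2 ∂μ ≤
        (1 + η) ^ 5 * Real.exp η * Λ *
          ∫ x, Real.exp (φ x) * (∑ q : (Σ k : Fin n, Fin (N k)), c q * F q.1 q.2 x) ^ 2 ∂μ := by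
  have hη' : (0 : ℝ) < 1 + η := by linarith
  -- the pieces
  set G : Fin n → M → ℝ := fun k x => ∑ m, c ⟨k, m⟩ * F k m x with hG
  set V : Fin n → M → ℂ := fun k x => ∑ m, c ⟨k, m⟩ • D.gr (F k m) x with hV
  have hGC : ∀ k, D.C1 (G k) ∧ ∀ x, D.gr (G k) x = V k x := fun k =>
    sum_C1 hD Finset.univ (fun m => c ⟨k, m⟩) (F k) fun m => (hF k m).1
  have hGcont : ∀ k, Continuous (G k) := fun k =>
    ((Pool.Agent.Y708.QE.gradient M μ D hD).1 _ (hGC k).1).1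
  have hG0 : ∀ k x, x ∉ Φ k '' Sq 0 (r k) → G k x = 0 := fun k x hx =>
    Finset.sum_eq_zero fun m _ => by rw [(hF k m).2.2 x hx, mul_zero]
  have hV0 : ∀ k x, x ∉ Φ k '' Sq 0 (r k) → V k x = 0 := by
    intro k x hx
    rw [← (hGC k).2 x]
    exact gr_off hD (im_closed (hP k).2) (hG0 k) hx
  have sG : ∀ x, ∑ q : (Σ k : Fin n, Fin (N k)), c q * F q.1 q.2 x = ∑ k, G k x := fun x => by
    rw [Fintype.sum_sigma]
  have sV : ∀ x, ∑ q : (Σ k : Fin n, Fin (N k)), c q • D.gr (F q.1 q.2) x = ∑ k, V k x :=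
    fun x => by rw [Fintype.sum_sigma]
  have hdj : ∀ x (i j : Fin n), i ≠ j → x ∉ Φ i '' Sq 0 (r i) ∨ x ∉ Φ j '' Sq 0 (r j) := by
    intro x i j hij
    by_contra h
    push Not at h
    exact (Set.disjoint_left.1 (hdis i j hij)) h.1 h.2
  have iG : ∀ k, Integrable (fun x => Real.exp (φ x) * (G k x) ^ 2) μ := fun k =>
    int_cont ((Real.continuous_exp.comp φ.continuous).mul ((hGcont k).pow 2))
  have iV : ∀ k, Integrable (fun x => ‖V k x‖ ^ 2) μ := by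
    intro k
    obtain ⟨-, hm, C, hC⟩ := (Pool.Agent.Y708.QE.gradient M μ D hD).1 _ (hGC k).1
    have e : (fun x => ‖V k x‖ ^ 2) = fun x => ‖D.gr (G k) x‖ ^ 2 := by
      funext x
      rw [(hGC k).2 x]
    rw [e]
    refine Integrable.of_bound (hm.norm.pow_const 2).aestronglyMeasurable (C ^ 2)
      (Eventually.of_forall fun x => ?_)
    rw [Real.norm_eq_abs, abs_of_nonneg (sq_nonneg _)]
    exact pow_le_pow_left₀ (norm_nonneg _) (hC x) 2
  have tG : ∫ x, Real.exp (φ x) * (∑ q : (Σ k : Fin n, Fin (N k)), c q * F q.1 q.2 x) ^ 2 ∂μ =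
      ∑ k, ∫ x in Φ k '' Sq 0 (r k), Real.exp (φ x) * (G k x) ^ 2 ∂μ := by
    have e : ∀ k, ∫ x in Φ k '' Sq 0 (r k), Real.exp (φ x) * (G k x) ^ 2 ∂μ =
        ∫ x, Real.exp (φ x) * (G k x) ^ 2 ∂μ := fun k =>
      setIntegral_eq_integral_of_forall_compl_eq_zero fun x hx => by
        rw [hG0 k x hx]
        simp
    rw [Finset.sum_congr rfl fun k _ => e k, ← integral_finsetSum _ fun k _ => iG k]
    refine integral_congr_ae (Eventually.of_forall fun x => ?_)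
    simp only
    rw [sG x, sum_one (fun k => G k x) (fun t => t ^ 2) (by simp) fun i j hij =>
      (hdj x i j hij).imp (hG0 i x) (hG0 j x), Finset.mul_sum]
  have tV : ∫ x, ‖∑ q : (Σ k : Fin n, Fin (N k)), c q • D.gr (F q.1 q.2) x‖ ^ 2 ∂μ =
      ∑ k, ∫ x in Φ k '' Sq 0 (r k), ‖V k x‖ ^ 2 ∂μ := by
    have e : ∀ k, ∫ x in Φ k '' Sq 0 (r k), ‖V k x‖ ^ 2 ∂μ = ∫ x, ‖V k x‖ ^ 2 ∂μ := fun k =>
      setIntegral_eq_integral_of_forall_compl_eq_zero fun x hx => by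
        rw [hV0 k x hx]
        simp
    rw [Finset.sum_congr rfl fun k _ => e k, ← integral_finsetSum _ fun k _ => iV k]
    refine integral_congr_ae (Eventually.of_forall fun x => ?_)
    simp only
    rw [sV x, sum_one (fun k => V k x) (fun t => ‖t‖ ^ 2) (by simp) fun i j hij =>
      (hdj x i j hij).imp (hV0 i x) (hV0 j x)]
  -- comparison of the weights
  have hw : ∀ k, Real.exp (φ (Φ k 0)) * ∫ x in Φ k '' Sq 0 (r k), (G k x) ^ 2 ∂μ ≤
      Real.exp η * ∫ x in Φ k '' Sq 0 (r k), Real.exp (φ x) * (G k x) ^ 2 ∂μ := by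
    intro k
    rw [← integral_const_mul, ← integral_const_mul]
    refine setIntegral_mono_on ((int_cont ((hGcont k).pow 2)).const_mul _).integrableOn
      ((iG k).const_mul _).integrableOn (im_closed (hP k).2).measurableSet fun x hx => ?_
    obtain ⟨y, hy, rfl⟩ := hx
    have h1 := (abs_le.1 (hφ k y hy)).1
    rw [← mul_assoc, ← Real.exp_add]
    exact mul_le_mul_of_nonneg_right (Real.exp_le_exp.2 (by linarith)) (sq_nonneg _)
  have one := fun k => one_square hD hη (L := Λ * Real.exp (φ (Φ k 0))) (by positivity) (hP k).2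
    (f k) (hf k) (F k) (hF k) (fun m => c ⟨k, m⟩) (hdir k fun m => c ⟨k, m⟩).1
    (hdir k fun m => c ⟨k, m⟩).2
  rw [tG, tV]
  constructor
  · rw [Fintype.sum_sigma, Finset.mul_sum]
    refine Finset.sum_le_sum fun k _ => ?_
    have h1 := (one k).1
    have h2 := hw k
    have h3 : Real.exp (-‖φ‖) ≤ Real.exp (φ (Φ k 0)) := by
      refine Real.exp_le_exp.2 ?_
      have := φ.norm_coe_le_norm (Φ k 0)
      rw [Real.norm_eq_abs] at this
      exact (abs_le.1 this).1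
    have h4 : 0 ≤ ∑ m, (c ⟨k, m⟩) ^ 2 := Finset.sum_nonneg fun m _ => sq_nonneg _
    have h5 : Real.exp (-η) * Real.exp η = 1 := by
      rw [← Real.exp_add]
      simp
    rw [div_mul_eq_mul_div, div_le_iff₀ (by positivity)]
    calc Real.exp (-η) * Real.exp (-‖φ‖) * ∑ m, (c ⟨k, m⟩) ^ 2
        ≤ Real.exp (-η) * Real.exp (φ (Φ k 0)) * ∑ m, (c ⟨k, m⟩) ^ 2 := by gcongr
      _ = 2 * (Real.exp (-η) * Real.exp (φ (Φ k 0))) * (1 / 2 * ∑ m, (c ⟨k, m⟩) ^ 2) := by ring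
      _ ≤ 2 * (Real.exp (-η) * Real.exp (φ (Φ k 0))) *
          ((1 + η) * ∫ x in Φ k '' Sq 0 (r k), (G k x) ^ 2 ∂μ) := by
        refine mul_le_mul_of_nonneg_left h1 (by positivity)
      _ = 2 * (1 + η) * Real.exp (-η) * (Real.exp (φ (Φ k 0)) *
          ∫ x in Φ k '' Sq 0 (r k), (G k x) ^ 2 ∂μ) := by ring
      _ ≤ 2 * (1 + η) * Real.exp (-η) * (Real.exp η *
          ∫ x in Φ k '' Sq 0 (r k), Real.exp (φ x) * (G k x) ^ 2 ∂μ) := by
        refine mul_le_mul_of_nonneg_left h2 (by positivity)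
      _ = (Real.exp (-η) * Real.exp η) * (2 * (1 + η)) *
          ∫ x in Φ k '' Sq 0 (r k), Real.exp (φ x) * (G k x) ^ 2 ∂μ := by ring
      _ = _ := by rw [h5]; ring
  · rw [Finset.mul_sum]
    refine Finset.sum_le_sum fun k _ => ?_
    calc _ ≤ (1 + η) ^ 5 * (Λ * Real.exp (φ (Φ k 0))) *
          ∫ x in Φ k '' Sq 0 (r k), (G k x) ^ 2 ∂μ := (one k).2
      _ = (1 + η) ^ 5 * Λ * (Real.exp (φ (Φ k 0)) *
          ∫ x in Φ k '' Sq 0 (r k), (G k x) ^ 2 ∂μ) := by ring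
      _ ≤ (1 + η) ^ 5 * Λ * (Real.exp η *
          ∫ x in Φ k '' Sq 0 (r k), Real.exp (φ x) * (G k x) ^ 2 ∂μ) := by
        refine mul_le_mul_of_nonneg_left (hw k) (by positivity)
      _ = _ := by ring

end Pool.Agent.Y268.QR
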